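import Pool.Agent.H39.Newt3.Base

/-! # Project NEWTON3: module KPB -/

set_option autoImplicit false

namespace Pool.Newt3

open MvPolynomial Pool.Agent.H39.MonoR Pool.Agent.H75.Mono Pool.Newt Pool.Newt2

namespace KPB33

variable {σ I : Type} [Fintype σ] [Fintype I]

open Classical in
/-- the factors on `Q` are replaced by differences -/
noncomputable def psi (p : I → ℂˣ) (Q : Finset I) (φ : Co σ I → ℤ → ℂ) : Co σ I → ℤ → ℂ
  | none => φ none
  | some (Sum.inl l) => φ (some (Sum.inl l))
  | some (Sum.inr i) => fun v =>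
      if i ∈ Q then φ (some (Sum.inr i)) v - ((p i : ℂ)⁻¹) * φ (some (Sum.inr i)) (v - 1)
      else φ (some (Sum.inr i)) v

open Classical in
theorem stepL (hRLB : SRlb) (a : I → σ → ℕ) (X : ℂ) (hX : X ≠ 0) (p : I → ℂˣ)
    (Wf : Finset σ) (Z E : Finset I) (h0 : OKs a X (phe p Wf Z E)) :
    ∀ L : Finset σ, L ⊆ Wf → OKs a X (phe p (Wf \ L) Z E) ∧
      ∀ h : GR I, Lc a X (phe p Wf Z E)
        ((∏ l ∈ L, (1 - AddMonoidAlgebra.single (fun i => -(a i l : ℤ)) X)) * h) =
        Lc a X (phe p (Wf \ L) Z E) h := by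
  intro L
  induction L using Finset.induction_on with
  | empty =>
    intro _
    rw [Finset.sdiff_empty]
    refine ⟨h0, fun h => ?_⟩
    rw [Finset.prod_empty, one_mul]
  | insert l L hl ih =>
    intro hL
    have hlW : l ∈ Wf := hL (Finset.mem_insert_self _ _)
    obtain ⟨ok, ihh⟩ := ih (fun x hx => hL (Finset.mem_insert_of_mem hx))
    have hφ : (phe p (Wf \ L) Z E (some (Sum.inl l)) : ℤ → ℂ) =
        fun v => if 0 ≤ v then 1 else 0 := by
      have hmem : l ∈ Wf \ L := Finset.mem_sdiff.2 ⟨hlW, hl⟩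
      funext v
      simp only [phe, if_pos hmem]
    have hupd : (Function.update (phe p (Wf \ L) Z E) (some (Sum.inl l))
        fun v => if v = 0 then (1 : ℂ) else 0) = phe (σ := σ) p (Wf \ insert l L) Z E := by
      funext ξ
      rcases ξ with _ | l' | i
      · rw [Function.update_of_ne (by simp)]
        simp only [phe]
      · by_cases hll : l' = l
        · subst hll
          rw [Function.update_self]
          have hn : l' ∉ Wf \ insert l' L := by
            simp
          funext v
          simp only [phe, if_neg hn]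
        · rw [Function.update_of_ne (by simpa using hll)]
          have hiff : l' ∈ Wf \ insert l L ↔ l' ∈ Wf \ L := by
            simp [hll]
          funext v
          simp only [phe, hiff]
      · rw [Function.update_of_ne (by simp)]
        simp only [phe]
    obtain ⟨r1, r2⟩ := hRLB σ I a X hX (phe p (Wf \ L) Z E) ok l hφ
    rw [hupd] at r1
    refine ⟨r1, fun h => ?_⟩
    rw [Finset.prod_insert hl]
    have e : (1 - AddMonoidAlgebra.single (fun i => -(a i l : ℤ)) X) *
        (∏ l ∈ L, (1 - AddMonoidAlgebra.single (fun i => -(a i l : ℤ)) X)) * h =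
        (∏ l ∈ L, (1 - AddMonoidAlgebra.single (fun i => -(a i l : ℤ)) X)) *
        ((1 - AddMonoidAlgebra.single (fun i => -(a i l : ℤ)) X) * h) := by ring
    rw [e, ihh, r2, hupd]

open Classical in
theorem stepQ (hRLA : SRla) (a : I → σ → ℕ) (X : ℂ) (p : I → ℂˣ) (φ : Co σ I → ℤ → ℂ)
    (h0 : OKs a X φ) :
    ∀ Q : Finset I, OKs a X (psi p Q φ) ∧
      ∀ h : GR I, Lc a X φ
        ((∏ i ∈ Q, (1 - AddMonoidAlgebra.single (Pi.single i 1) ((p i : ℂ)⁻¹))) * h) =
        Lc a X (psi p Q φ) h := by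
  intro Q
  induction Q using Finset.induction_on with
  | empty =>
    have e : psi p ∅ φ = φ := by
      funext ξ
      rcases ξ with _ | l' | i
      · simp only [psi]
      · simp only [psi]
      · funext v
        simp [psi]
    rw [e]
    refine ⟨h0, fun h => ?_⟩
    rw [Finset.prod_empty, one_mul]
  | insert i Q hi ih =>
    obtain ⟨ok, ihh⟩ := ih
    obtain ⟨r1, r2⟩ := hRLA σ I a X (psi p Q φ) ok i ((p i : ℂ)⁻¹)
    have hupd : (Function.update (psi p Q φ) (some (Sum.inr i)) fun v =>
        psi p Q φ (some (Sum.inr i)) v - ((p i : ℂ)⁻¹) * psi p Q φ (some (Sum.inr i)) (v - 1)) =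
        psi p (insert i Q) φ := by
      funext ξ
      rcases ξ with _ | l' | i'
      · rw [Function.update_of_ne (by simp)]
        simp only [psi]
      · rw [Function.update_of_ne (by simp)]
        simp only [psi]
      · by_cases hii : i' = i
        · subst hii
          rw [Function.update_self]
          funext v
          simp only [psi, if_neg hi, if_pos (Finset.mem_insert_self i' Q)]
        · rw [Function.update_of_ne (by simpa using hii)]
          have hiff : i' ∈ insert i Q ↔ i' ∈ Q := by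
            simp [hii]
          funext v
          simp only [psi, hiff]
    rw [hupd] at r1
    refine ⟨r1, fun h => ?_⟩
    rw [Finset.prod_insert hi]
    have e : (1 - AddMonoidAlgebra.single (Pi.single i 1) ((p i : ℂ)⁻¹)) *
        (∏ i ∈ Q, (1 - AddMonoidAlgebra.single (Pi.single i 1) ((p i : ℂ)⁻¹))) * h =
        (∏ i ∈ Q, (1 - AddMonoidAlgebra.single (Pi.single i 1) ((p i : ℂ)⁻¹))) *
        ((1 - AddMonoidAlgebra.single (Pi.single i 1) ((p i : ℂ)⁻¹)) * h) := by ring
    rw [e, ihh, r2, hupd]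

theorem phe_neg (p : I → ℂˣ) (Wf : Finset σ) (Z E : Finset I) (i : I) (v : ℤ) (hv : v < 0) :
    phe (σ := σ) p Wf Z E (some (Sum.inr i)) v = 0 := by
  simp only [phe]
  have h1 : ¬ (0 ≤ v) := by omega
  have h2 : ¬ (v = 0) := by omega
  simp [h1, h2]

theorem phe_inl (p : I → ℂˣ) (Wf : Finset σ) (Z E : Finset I) (l : σ) (v : ℤ)
    (hv : v < 0 ∨ (l ∉ Wf ∧ v ≠ 0)) : phe p Wf Z E (some (Sum.inl l)) v = 0 := by
  simp only [phe]
  rcases hv with hv | ⟨hl, hv⟩
  · have h1 : ¬ (0 ≤ v) := by omega
    have h2 : ¬ (v = 0) := by omega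
    simp [h1, h2]
  · simp [hl, hv]

end KPB33

open KPB33 in
open Classical in
theorem sKpb (hRLA : SRla) (hRLB : SRlb) (hFSM : SFsm) (hLVN : SLvn) : SKpb := by
  intro σ I _ _ a x hx p Wf Z E hZE hp hW L Q hL hEmp g
  have hX : ((x : ℂ)⁻¹) ≠ 0 := by
    apply inv_ne_zero
    have : x ≠ 0 := by linarith
    exact_mod_cast this
  have h0 : OKs a ((x : ℂ)⁻¹) (phe p Wf Z E) := by
    refine hFSM σ I a _ Wf ((Z ∪ E)ᶜ) ?_ _ ?_ ?_
    · intro l hl
      obtain ⟨i, h1, h2, h3⟩ := hW l hl
      refine ⟨i, ?_, h3⟩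
      simp [h1, h2]
    · intro l v hv
      exact phe_inl p Wf Z E l v hv
    · intro i hi
      have hi' : i ∉ Z ∧ i ∉ E := by simpa using hi
      refine ⟨0, fun v hv => ?_⟩
      have h2 : v ≠ 0 := by
        intro h
        simp [h] at hv
      simp only [phe]
      simp [hi'.1, hi'.2, h2]
  obtain ⟨ok1, e1⟩ := stepL hRLB a _ hX p Wf Z E h0 L hL
  obtain ⟨ok2, e2⟩ := stepQ hRLA a ((x : ℂ)⁻¹) p _ ok1 Q
  rw [mul_assoc, e1, e2]
  apply Lc_pol
  refine hLVN σ I a _ (Wf \ L) (Q ∪ (Z ∪ E)ᶜ) _ 1 ?_ ?_ ?_ hEmp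
  · intro l v hv
    simp only [psi]
    exact phe_inl p (Wf \ L) Z E l v hv
  · intro i v hv
    have hv' : v < -1 := by simpa using hv
    simp only [psi]
    rw [phe_neg p (Wf \ L) Z E i v (by omega), phe_neg p (Wf \ L) Z E i (v - 1) (by omega)]
    simp
  · intro i hi v hv
    have hv' : 1 < v := by simpa using hv
    have hv0 : v ≠ 0 := by omega
    have hv1 : v - 1 ≠ 0 := by omega
    have hv2 : 0 ≤ v := by omega
    have hv3 : 0 ≤ v - 1 := by omega
    simp only [psi]
    by_cases hiZ : i ∈ Z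
    · have hiQ : i ∈ Q := by
        rcases Finset.mem_union.1 hi with h | h
        · exact h
        · rw [Finset.mem_compl, Finset.mem_union] at h
          exact absurd (Or.inl hiZ) h
      simp only [phe, if_pos hiQ, if_pos hiZ, if_pos hv2, if_pos hv3, hp i hiZ]
      simp
    · by_cases hiE : i ∈ E
      · have hiQ : i ∈ Q := by
          rcases Finset.mem_union.1 hi with h | h
          · exact h
          · rw [Finset.mem_compl, Finset.mem_union] at h
            exact absurd (Or.inr hiE) h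
        simp only [phe, if_pos hiQ, if_neg hiZ, if_pos hiE, if_pos hv2, if_pos hv3]
        have e : ((p i ^ (-v) : ℂˣ) : ℂ) = ((p i : ℂ)⁻¹) * ((p i ^ (-(v - 1)) : ℂˣ) : ℂ) := by
          have h5 : (p i ^ (-v) : ℂˣ) = (p i)⁻¹ * p i ^ (-(v - 1)) := by
            rw [← zpow_neg_one, ← zpow_add]
            congr 1
            ring
          rw [h5, Units.val_mul, Units.val_inv_eq_inv_val]
        rw [e]
        ring
      · simp only [phe, if_neg hiZ, if_neg hiE, if_neg hv0, if_neg hv1]
        simp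

end Pool.Newt3
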